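import Pool.Agent.Lib.MP_2f3286_ag.Ep.B5

/-!
# Squares and products, any prime
-/

namespace Pool.Agent.Lib.MP_2f3286_ag.Ep

variable {p : ℕ} [Fact p.Prime] {F H L Fh : Type*} [Field F] [AddCommGroup H] [Module (ZMod p) H]
  {X : Dat p F H} [Field L] [Algebra F L] [Field Fh]

private theorem b4_pow_le (X : Dat p F H) (n : ℕ) : X.v X.π ^ n ≤ 1 :=
  pow_le_one₀ X.π_pos.le X.π_lt.le

private theorem b4_key (h2 : (2 : Fh) ≠ 0) (Y : Pl X L Fh) {y : L} {z : Fh} (hz : z ≠ 0)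
    (h : Y.IsVal y z) (g : H) {ρ : ℝ} (hρ : 0 < ρ) :
    ∃ c : F, Y.w (z - Y.j c) < ρ ∧ Y.κ (y ^ 2 - algebraMap F L (c ^ 2)) = g := by
  have main : ∀ c : F, Y.j c ≠ z → Y.j c ≠ -z →
      Y.κ (y ^ 2 - algebraMap F L (c ^ 2)) = Y.ch (z - Y.j c) + Y.ch (z + Y.j c) := by
    intro c hc1 hc2
    have hc3 : Y.j (-c) ≠ z := by
      rw [map_neg]
      intro h0
      exact hc2 (by rw [← h0, neg_neg])
    obtain ⟨a1, a2⟩ := h c hc1
    obtain ⟨b1, b2⟩ := h (-c) hc3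
    have e1 : y ^ 2 - algebraMap F L (c ^ 2) =
        (y - algebraMap F L c) * (y - algebraMap F L (-c)) := by
      rw [map_pow, map_neg]; ring
    rw [e1, Y.κ_mul _ _ (sub_ne_zero.mpr a1) (sub_ne_zero.mpr b1), a2, b2, map_neg,
      sub_neg_eq_add]
  have hz2 : 2 * z ≠ 0 := mul_ne_zero h2 hz
  have hd : 0 < Y.w (2 * z) := Y.w.pos hz2
  obtain ⟨c, hc1, hc2, hc3⟩ := Y.dens z (g - Y.ch (2 * z))
    (lt_min hρ (mul_pos hd (pow_pos X.π_pos X.N)))
  have hc2' := lt_min_iff.mp hc2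
  have hle : Y.w (2 * z) * X.v X.π ^ X.N ≤ Y.w (2 * z) :=
    mul_le_of_le_one_right hd.le (b4_pow_le X _)
  have hc4 : Y.j c ≠ -z := by
    intro h0
    have e1 : z - Y.j c = 2 * z := by rw [h0]; ring
    have h3 := hc2'.2
    rw [e1] at h3
    exact absurd h3 (not_lt.mpr hle)
  refine ⟨c, hc2'.1, ?_⟩
  have e1 : z + Y.j c - 2 * z = -(z - Y.j c) := by ring
  have h1 : Y.ch (z + Y.j c) = Y.ch (2 * z) := by
    apply Y.ch_near hz2
    rw [e1, Y.w.map_neg]; exact hc2'.2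
  rw [main c hc1 hc4, hc3, h1, sub_add_cancel]

theorem Pl.val_sqn0 (h2 : (2 : Fh) ≠ 0) (Y : Pl X L Fh) {y : L} {z : Fh} (hz0 : z ≠ 0)
    (h : Y.IsVal y z) : Y.IsVal (y ^ 2) (z ^ 2) := by
  rcases Y.exists_val (y ^ 2) with ⟨z₁, h1⟩ | h1
  · by_cases hz : z₁ = z ^ 2
    · rw [← hz]; exact h1
    exfalso
    have hz1 : z₁ - z ^ 2 ≠ 0 := sub_ne_zero.mpr hz
    have hd : 0 < Y.w (z₁ - z ^ 2) := Y.w.pos hz1
    set M : ℝ := max (Y.w z) 1 with hM
    have hM1 : 1 ≤ M := le_max_right _ _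
    have hM0 : 0 < M := lt_of_lt_of_le zero_lt_one hM1
    have hle : Y.w (z₁ - z ^ 2) * X.v X.π ^ X.N ≤ Y.w (z₁ - z ^ 2) :=
      mul_le_of_le_one_right hd.le (b4_pow_le X _)
    have key : ∀ g : H, g = Y.ch (z₁ - z ^ 2) := by
      intro g
      obtain ⟨c, hc1, hc2⟩ := b4_key h2 Y hz0 h g
        (lt_min zero_lt_one (div_pos (mul_pos hd (pow_pos X.π_pos X.N)) hM0))
      obtain ⟨hc3, hc4⟩ := lt_min_iff.mp hc1
      have e1 : z + Y.j c = (z + z) + -(z - Y.j c) := by ring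
      have hw : Y.w (z + Y.j c) ≤ M := by
        rw [e1]
        refine (Y.wna _ _).trans (max_le ((Y.wna _ _).trans ?_) ?_)
        · rw [max_self]; exact le_max_left _ _
        · rw [Y.w.map_neg]; exact hc3.le.trans hM1
      have e2 : z₁ - Y.j (c ^ 2) - (z₁ - z ^ 2) = (z - Y.j c) * (z + Y.j c) := by
        rw [map_pow]; ring
      have h3 : Y.w (z₁ - Y.j (c ^ 2) - (z₁ - z ^ 2)) <
          Y.w (z₁ - z ^ 2) * X.v X.π ^ X.N := by
        rw [e2, Y.w.map_mul]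
        calc Y.w (z - Y.j c) * Y.w (z + Y.j c) ≤ Y.w (z - Y.j c) * M :=
              mul_le_mul_of_nonneg_left hw (Y.w.nonneg _)
          _ < _ := (lt_div_iff₀ hM0).mp hc4
      have h4 : Y.j (c ^ 2) ≠ z₁ := by
        intro h0
        rw [h0, sub_self, zero_sub, Y.w.map_neg] at h3
        exact absurd h3 (not_lt.mpr hle)
      rw [← Y.ch_near hz1 h3, ← (h1 _ h4).2, hc2]
    exact Pl.ε_ne X ((key X.ε).trans (key 0).symm)
  · exfalso
    have key : ∀ g : H, g = Y.κ (y ^ 2) := by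
      intro g
      obtain ⟨c, _, hc2⟩ := b4_key h2 Y hz0 h g zero_lt_one
      rw [← (h1 (c ^ 2)).2, hc2]
    exact Pl.ε_ne X ((key X.ε).trans (key 0).symm)

theorem Pl.val_sqn (h2 : (2 : Fh) ≠ 0) (Y : Pl X L Fh) {y : L} {z : Fh}
    (h : Y.IsVal y z) : Y.IsVal (y ^ 2) (z ^ 2) := by
  by_cases hz : z = 0
  swap
  · exact Y.val_sqn0 h2 hz h
  subst hz
  have h1 : Y.IsVal 1 1 := by
    have h3 := Y.val_alg 1
    rwa [map_one, map_one] at h3
  have h3 := Y.val_add h h1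
  rw [zero_add] at h3
  have h4 := Y.val_sqn0 h2 one_ne_zero h3
  have h5 := Y.val_add (Y.val_add h4 (Y.val_smul (-2) h)) (Y.val_smul (-1) h1)
  have e1 : (y + 1) ^ 2 + algebraMap F L (-2) * y + algebraMap F L (-1) * 1 = y ^ 2 := by
    rw [map_neg, map_neg, map_ofNat, map_one]
    ring
  have e2 : (1 : Fh) ^ 2 + Y.j (-2) * 0 + Y.j (-1) * 1 = 0 ^ 2 := by
    rw [map_neg, map_neg, map_one]
    ring
  rwa [e1, e2] at h5

theorem Pl.val_muln (h2 : (2 : Fh) ≠ 0) (Y : Pl X L Fh) {x y : L} {z z' : Fh}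
    (h : Y.IsVal x z) (h' : Y.IsVal y z') : Y.IsVal (x * y) (z * z') := by
  have hF2 : (2 : F) ≠ 0 := by
    intro h0
    apply h2
    have h := congrArg Y.j h0
    rwa [map_ofNat, map_zero] at h
  have hL2 : (2 : L) ≠ 0 := by
    intro h0
    apply hF2
    apply (algebraMap F L).injective
    rw [map_ofNat, map_zero, h0]
  have h1 := Y.val_sqn h2 (Y.val_add h h')
  have h3 := Y.val_smul (-1) (Y.val_sqn h2 h)
  have h4 := Y.val_smul (-1) (Y.val_sqn h2 h')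
  have h5 := Y.val_smul (2⁻¹) (Y.val_add (Y.val_add h1 h3) h4)
  have e1 : algebraMap F L 2⁻¹ * ((x + y) ^ 2 + algebraMap F L (-1) * x ^ 2 +
      algebraMap F L (-1) * y ^ 2) = x * y := by
    rw [map_inv₀, map_ofNat, map_neg, map_one]
    field_simp
    ring
  have e2 : Y.j 2⁻¹ * ((z + z') ^ 2 + Y.j (-1) * z ^ 2 + Y.j (-1) * z' ^ 2) = z * z' := by
    rw [map_inv₀, map_ofNat, map_neg, map_one]
    field_simp
    ring
  rwa [e1, e2] at h5

end Pool.Agent.Lib.MP_2f3286_ag.Ep
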