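import Pool.Agent.Lib.MP_2f3286_ag.Ep.D2

/-!
# Expansions of `p`-th powers, any prime

As Ep/D3.
-/

namespace Pool.Agent.Lib.MP_2f3286_ag.Ep

open Koe

variable {k kb : Type*} [Field k] [Field kb] [Algebra k kb] [IsGalois k kb] [IsAlgClosed kb]
  [CharZero kb] {v : AbsoluteValue kb ℝ} {p : ℕ}

section aux

variable {F : Type*} [Field F] {V : AbsoluteValue F ℝ}

private theorem D3_sum (na : ∀ a b, V (a + b) ≤ max (V a) (V b)) {ι : Type*} (s : Finset ι)
    (f : ι → F) {C : ℝ} (hC : 0 ≤ C) (h : ∀ i ∈ s, V (f i) ≤ C) : V (∑ i ∈ s, f i) ≤ C :=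
  Finset.sum_induction f (fun x => V x ≤ C) (fun a b ha hb => (na a b).trans (max_le ha hb))
    (by rw [map_zero]; exact hC) h

private theorem D3_nat (na : ∀ a b, V (a + b) ≤ max (V a) (V b)) (n : ℕ) : V (n : F) ≤ 1 := by
  induction n with
  | zero => simp
  | succ n ih =>
    rw [Nat.cast_succ]
    exact (na _ _).trans (max_le ih (le_of_eq (map_one V)))

private theorem D3_sub (na : ∀ a b, V (a + b) ≤ max (V a) (V b)) (a b : F) :
    V (a - b) ≤ max (V a) (V b) := by
  rw [sub_eq_add_neg]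
  exact (na _ _).trans (le_of_eq (by rw [V.map_neg]))

private theorem D3_pow {p : ℕ} (hp : p.Prime) (y : F) : (1 + y) ^ p =
    1 + y ^ p + p * ∑ i ∈ Finset.Ioo 0 p, y ^ i * 1 ^ (p - i) * ((p.choose i / p : ℕ) : F) := by
  rw [add_comm 1 y, add_pow_prime_eq hp, one_pow]
  simp only [one_pow, mul_one]
  rw [mul_assoc (p : F) y, Finset.mul_sum]
  have : ∀ i ∈ Finset.Ioo 0 p, y * (y ^ (i - 1) * ((p.choose i / p : ℕ) : F)) =
      y ^ i * ((p.choose i / p : ℕ) : F) := by
    intro i hi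
    have h1 := (Finset.mem_Ioo.1 hi).1
    have h2 : i = i - 1 + 1 := by omega
    rw [← mul_assoc, ← pow_succ', ← h2]
  rw [Finset.sum_congr rfl this]
  ring

/-- the binomial expansion up to the first term -/
private theorem D3_bin (na : ∀ a b, V (a + b) ≤ max (V a) (V b)) {p : ℕ} (hp : p.Prime) {y : F}
    (hy : V y ≤ 1) : ∃ R : F, V R ≤ V (p : F) * V y ∧ (1 + y) ^ p = 1 + y ^ p + R := by
  refine ⟨(p : F) * ∑ i ∈ Finset.Ioo 0 p, y ^ i * 1 ^ (p - i) * ((p.choose i / p : ℕ) : F), ?_, ?_⟩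
  · rw [map_mul]
    apply mul_le_mul_of_nonneg_left _ (V.nonneg _)
    apply D3_sum na _ _ (V.nonneg _)
    intro i hi
    have hi0 : i ≠ 0 := (Finset.mem_Ioo.1 hi).1.ne'
    rw [one_pow, mul_one, map_mul, map_pow]
    calc V y ^ i * V ((p.choose i / p : ℕ) : F) ≤ V y ^ i * 1 :=
          mul_le_mul_of_nonneg_left (D3_nat na _) (pow_nonneg (V.nonneg _) _)
      _ = V y ^ i := mul_one _
      _ ≤ V y := pow_le_of_le_one (V.nonneg _) hy hi0
  · rw [D3_pow hp]

/-- the binomial expansion up to the second term -/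
private theorem D3_bin2 (na : ∀ a b, V (a + b) ≤ max (V a) (V b)) {p : ℕ} (hp : p.Prime) {y : F}
    (hy : V y ≤ 1) :
    ∃ R : F, V R ≤ V (p : F) * V y ^ 2 ∧ (1 + y) ^ p = 1 + y ^ p + p * y + R := by
  have h1 : (1 : ℕ) ∈ Finset.Ioo 0 p := Finset.mem_Ioo.2 ⟨one_pos, hp.one_lt⟩
  refine ⟨(p : F) * ∑ i ∈ (Finset.Ioo 0 p).erase 1,
    y ^ i * 1 ^ (p - i) * ((p.choose i / p : ℕ) : F), ?_, ?_⟩
  · rw [map_mul]
    apply mul_le_mul_of_nonneg_left _ (V.nonneg _)
    apply D3_sum na _ _ (pow_nonneg (V.nonneg _) _)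
    intro i hi
    obtain ⟨hi1, hi⟩ := Finset.mem_erase.1 hi
    have hi0 : 2 ≤ i := by
      have := (Finset.mem_Ioo.1 hi).1
      omega
    rw [one_pow, mul_one, map_mul, map_pow]
    calc V y ^ i * V ((p.choose i / p : ℕ) : F) ≤ V y ^ i * 1 :=
          mul_le_mul_of_nonneg_left (D3_nat na _) (pow_nonneg (V.nonneg _) _)
      _ = V y ^ i := mul_one _
      _ ≤ V y ^ 2 := pow_le_pow_of_le_one (V.nonneg _) hy hi0
  · rw [D3_pow hp, ← Finset.add_sum_erase _ _ h1]
    rw [Nat.choose_one_right, Nat.div_self hp.pos, Nat.cast_one, one_pow]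
    ring

/-- `p = (1 - ζ) ^ (p - 1) * (-1 + δ)` -/
private theorem D3_wil (na : ∀ a b, V (a + b) ≤ max (V a) (V b)) {p : ℕ} (hp : p.Prime) {ζ : F}
    (hζ : IsPrimitiveRoot ζ p) (h1 : V (1 - ζ) < 1) (h2 : V (p : F) < 1) :
    ∃ δ : F, V δ < 1 ∧ (p : F) = (1 - ζ) ^ (p - 1) * (-1 + δ) := by
  obtain ⟨n, rfl⟩ : ∃ n, p = n + 1 := ⟨p - 1, by have := hp.pos; omega⟩
  set g : ℕ → F := fun i => ∑ j ∈ Finset.range (i + 1), ζ ^ j with hg
  have hV1 : V ζ = 1 := by
    have : V ζ ^ (n + 1) = 1 := by rw [← map_pow, hζ.pow_eq_one, map_one]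
    exact (pow_eq_one_iff_of_nonneg (V.nonneg _) (Nat.succ_ne_zero n)).1 this
  have hz : ∀ j : ℕ, V (ζ ^ j - 1) < 1 := by
    intro j
    have : ζ ^ j - 1 = -((1 - ζ) * ∑ i ∈ Finset.range j, ζ ^ i) := by
      rw [mul_neg_geom_sum]
      ring
    rw [this, V.map_neg, map_mul]
    calc V (1 - ζ) * V (∑ i ∈ Finset.range j, ζ ^ i) ≤ V (1 - ζ) * 1 := by
          apply mul_le_mul_of_nonneg_left _ (V.nonneg _)
          apply D3_sum na _ _ zero_le_one
          intro i _
          rw [map_pow, hV1, one_pow]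
      _ < 1 := by rw [mul_one]; exact h1
  have hgi : ∀ i : ℕ, V (g i - ((i + 1 : ℕ) : F)) < 1 := by
    intro i
    induction i with
    | zero => simp [hg]
    | succ i ih =>
      have : g (i + 1) - ((i + 1 + 1 : ℕ) : F) = (g i - ((i + 1 : ℕ) : F)) + (ζ ^ (i + 1) - 1) := by
        simp only [hg]
        rw [Finset.sum_range_succ]
        push_cast
        ring
      rw [this]
      exact (na _ _).trans_lt (max_lt ih (hz _))
  have hgle : ∀ i : ℕ, V (g i) ≤ 1 := by
    intro i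
    apply D3_sum na _ _ zero_le_one
    intro j _
    rw [map_pow, hV1, one_pow]
  have hprod : ∀ m : ℕ, V (∏ i ∈ Finset.range m, g i) ≤ 1 ∧
      V (∏ i ∈ Finset.range m, g i - (m.factorial : F)) < 1 := by
    intro m
    induction m with
    | zero => simp
    | succ m ih =>
      refine ⟨?_, ?_⟩
      · rw [Finset.prod_range_succ, map_mul]
        exact mul_le_one₀ ih.1 (V.nonneg _) (hgle m)
      · have : ∏ i ∈ Finset.range (m + 1), g i - ((m + 1).factorial : F) =
            (∏ i ∈ Finset.range m, g i) * (g m - ((m + 1 : ℕ) : F)) +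
              ((m + 1 : ℕ) : F) * (∏ i ∈ Finset.range m, g i - (m.factorial : F)) := by
          rw [Finset.prod_range_succ, Nat.factorial_succ]
          push_cast
          ring
        rw [this]
        apply (na _ _).trans_lt
        apply max_lt
        · rw [map_mul]
          calc V (∏ i ∈ Finset.range m, g i) * V (g m - ((m + 1 : ℕ) : F))
              ≤ 1 * V (g m - ((m + 1 : ℕ) : F)) :=
                mul_le_mul_of_nonneg_right ih.1 (V.nonneg _)
            _ < 1 := by rw [one_mul]; exact hgi m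
        · rw [map_mul]
          calc V ((m + 1 : ℕ) : F) * V (∏ i ∈ Finset.range m, g i - (m.factorial : F))
              ≤ 1 * V (∏ i ∈ Finset.range m, g i - (m.factorial : F)) :=
                mul_le_mul_of_nonneg_right (D3_nat na _) (V.nonneg _)
            _ < 1 := by rw [one_mul]; exact ih.2
  refine ⟨∏ i ∈ Finset.range n, g i + 1, ?_, ?_⟩
  · have hw : ∃ q : ℕ, n.factorial + 1 = (n + 1) * q := by
      have : Fact (n + 1).Prime := ⟨hp⟩
      have hw := ZMod.wilsons_lemma (n + 1)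
      rw [Nat.add_sub_cancel] at hw
      have : ((n.factorial + 1 : ℕ) : ZMod (n + 1)) = 0 := by
        rw [Nat.cast_add, hw, Nat.cast_one]
        ring
      exact (ZMod.natCast_eq_zero_iff _ _).1 this
    obtain ⟨q, hq⟩ := hw
    have : ∏ i ∈ Finset.range n, g i + 1 =
        (∏ i ∈ Finset.range n, g i - (n.factorial : F)) + ((n + 1 : ℕ) : F) * (q : F) := by
      have : ((n.factorial + 1 : ℕ) : F) = (((n + 1) * q : ℕ) : F) := by rw [hq]
      push_cast at this ⊢
      linear_combination this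
    rw [this]
    apply (na _ _).trans_lt
    apply max_lt (hprod n).2
    rw [map_mul]
    calc V ((n + 1 : ℕ) : F) * V (q : F) ≤ V ((n + 1 : ℕ) : F) * 1 :=
          mul_le_mul_of_nonneg_left (D3_nat na _) (V.nonneg _)
      _ < 1 := by rw [mul_one]; exact h2
  · have h3 := hζ.prod_one_sub_pow_eq_order
    rw [Nat.add_sub_cancel, Nat.cast_succ, ← h3]
    have h4 : ∀ i ∈ Finset.range n, (1 - ζ ^ (i + 1)) = (1 - ζ) * g i := by
      intro i _
      simp only [hg]
      rw [mul_neg_geom_sum]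
    rw [Finset.prod_congr rfl h4, Finset.prod_mul_distrib, Finset.prod_const, Finset.card_range]
    ring

end aux

theorem stepn (hd : LocData v (⊤ : Subgroup Gal(kb/k)) p) {ζ : k}
    (hζ : IsPrimitiveRoot ζ p) {x : k} (hx : vk k v x < 1)
    (hx' : vk k v (1 - ζ) ^ p < vk k v x) {c : k} (hc : vk k v x = vk k v c ^ p) :
    ∃ x' b : k, b ≠ 0 ∧ vk k v x' < vk k v x ∧ 1 - x = (1 - x') * b ^ p := by
  have na := vk_na hd
  set V := vk k v with hV
  obtain ⟨hz0, hz1, hzp, -⟩ := v_zeta hd hζ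
  have hp := hd.prime
  have hx0 : 0 < V x := (pow_nonneg hz0.le _).trans_lt hx'
  have hc0 : 0 < V c := by
    rcases (V.nonneg c).lt_or_eq with h | h
    · exact h
    · exfalso
      rw [hc, ← h, zero_pow hp.ne_zero] at hx0
      exact lt_irrefl _ hx0
  have hcne : c ≠ 0 := by
    rintro rfl
    rw [map_zero] at hc0
    exact lt_irrefl _ hc0
  have hc1 : V c < 1 := by
    by_contra h
    have := one_le_pow₀ (not_lt.1 h) (n := p)
    rw [← hc] at this
    exact absurd hx (not_lt.2 this)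
  have hzc : V (1 - ζ) < V c := by
    rw [hc] at hx'
    exact lt_of_pow_lt_pow_left₀ p hc0.le hx'
  have hu : V (-(x / c ^ p)) = 1 := by
    rw [V.map_neg, map_div₀, map_pow, ← hc, div_self hx0.ne']
  obtain ⟨θ, hθ, hθ'⟩ := perfk hd hu
  have hθ1 : V θ = 1 := hθ
  have hθ2 : V (-(x / c ^ p) - θ ^ p) < 1 := hθ'
  have hy : V (c * θ) = V c := by rw [map_mul, hθ1, mul_one]
  obtain ⟨R, hR, hb⟩ := D3_bin na hp (y := c * θ) (hy.le.trans hc1.le)
  rw [hy] at hR
  have hRx : V R < V x := by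
    apply hR.trans_lt
    have h1 : V (p : k) = V (1 - ζ) ^ (p - 1) := hzp
    rw [h1, hc]
    have h2 : V (1 - ζ) ^ (p - 1) < V c ^ (p - 1) :=
      pow_lt_pow_left₀ hzc hz0.le (by have := hp.two_le; omega)
    calc V (1 - ζ) ^ (p - 1) * V c < V c ^ (p - 1) * V c := mul_lt_mul_of_pos_right h2 hc0
      _ = V c ^ p := by rw [← pow_succ]; congr 1; have := hp.two_le; omega
  have hb1 : V (1 + c * θ) = 1 := by
    apply le_antisymm
    · apply (na _ _).trans
      rw [map_one, hy]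
      exact max_le le_rfl hc1.le
    · by_contra h
      have h1 := D3_sub na (1 + c * θ) (c * θ)
      rw [add_sub_cancel_right, map_one, hy] at h1
      rcases le_max_iff.1 h1 with h2 | h2
      · exact h h2
      · exact absurd hc1 (not_lt.2 h2)
  set b : k := 1 + c * θ with hbdef
  have hbne : b ≠ 0 := by
    intro h
    rw [h, map_zero] at hb1
    exact zero_ne_one hb1
  have hbp : b ^ p ≠ 0 := pow_ne_zero _ hbne
  refine ⟨1 - (1 - x) / b ^ p, b, hbne, ?_, ?_⟩
  · have h1 : 1 - (1 - x) / b ^ p = (b ^ p - (1 - x)) / b ^ p := by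
      field_simp
    rw [h1, map_div₀, map_pow, hb1, one_pow, div_one, hb]
    have h2 : 1 + (c * θ) ^ p + R - (1 - x) = -(c ^ p * (-(x / c ^ p) - θ ^ p)) + R := by
      have : c ^ p ≠ 0 := pow_ne_zero _ hcne
      rw [mul_pow]
      field_simp
      ring
    rw [h2]
    apply (na _ _).trans_lt
    apply max_lt _ hRx
    rw [V.map_neg, map_mul, map_pow, ← hc]
    calc V x * V (-(x / c ^ p) - θ ^ p) < V x * 1 := mul_lt_mul_of_pos_left hθ2 hx0
      _ = V x := mul_one _
  · field_simp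
    ring

theorem artinn (hd : LocData v (⊤ : Subgroup Gal(kb/k)) p) {ζ : k}
    (hζ : IsPrimitiveRoot ζ p) {w : kb} (hw : v w ≤ 1) :
    ∃ e : kb, v e < 1 ∧ (1 + algebraMap k kb (1 - ζ) * w) ^ p =
      1 + algebraMap k kb (1 - ζ) ^ p * (w ^ p - w + e) := by
  have na := hd.nonarch
  have hp := hd.prime
  obtain ⟨hz0, hz1, hzp, -⟩ := v_zeta hd hζ
  rw [vk_apply] at hz0 hz1 hzp
  rw [vk_apply, map_natCast] at hzp
  set l : kb := algebraMap k kb (1 - ζ) with hl
  have hl1 : l = 1 - algebraMap k kb ζ := by rw [hl, map_sub, map_one]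
  have hζ' : IsPrimitiveRoot (algebraMap k kb ζ) p :=
    hζ.map_of_injective (algebraMap k kb).injective
  obtain ⟨δ, hδ, hδ'⟩ := D3_wil na hp hζ' (by rw [← hl1]; exact hz1) hd.small
  rw [← hl1] at hδ'
  have hy : v (l * w) ≤ v l := by
    rw [map_mul]
    exact mul_le_of_le_one_right (v.nonneg _) hw
  obtain ⟨R, hR, hb⟩ := D3_bin2 na hp (y := l * w) (hy.trans hz1.le)
  have hlne : l ≠ 0 := by
    intro h
    rw [h, map_zero] at hz0
    exact lt_irrefl _ hz0
  have hlp : l ^ p ≠ 0 := pow_ne_zero _ hlne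
  refine ⟨δ * w + R / l ^ p, ?_, ?_⟩
  · apply (na _ _).trans_lt
    apply max_lt
    · rw [map_mul]
      calc v δ * v w ≤ v δ * 1 := mul_le_mul_of_nonneg_left hw (v.nonneg _)
        _ < 1 := by rw [mul_one]; exact hδ
    · rw [map_div₀, map_pow, div_lt_one (pow_pos hz0 _)]
      apply hR.trans_lt
      calc v (p : kb) * v (l * w) ^ 2 ≤ v (p : kb) * v l ^ 2 :=
            mul_le_mul_of_nonneg_left (pow_le_pow_left₀ (v.nonneg _) hy 2) (v.nonneg _)
        _ = v l ^ p * v l := by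
            rw [hzp, ← pow_add, ← pow_succ]
            congr 1
            have := hp.two_le
            omega
        _ < v l ^ p * 1 := mul_lt_mul_of_pos_left hz1 (pow_pos hz0 _)
        _ = v l ^ p := mul_one _
  · rw [hb]
    have h1 : l ^ p * (R / l ^ p) = R := mul_div_cancel₀ _ hlp
    have h2 : l ^ p = l ^ (p - 1) * l := by
      rw [← pow_succ]
      congr 1
      have := hp.two_le
      omega
    rw [mul_pow]
    have h3 : l ^ p * (w ^ p - w + (δ * w + R / l ^ p)) =
        l ^ p * w ^ p + l ^ p * (-w + δ * w) + R := by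
      linear_combination h1
    rw [h3, h2]
    have h4 : (p : kb) * (l * w) = l ^ (p - 1) * l * (-w + δ * w) := by
      rw [hδ']
      ring
    linear_combination h4

end Pool.Agent.Lib.MP_2f3286_ag.Ep
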