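import Pool.Agent.Lib.MP_2f3286_ag.Ep2.D5
import Pool.Agent.Lib.MP_2f3286_ag.Ep.D6

/-!
# The structure `Base` of a local field, any prime

As Ep/D6; `-1` is a `p`-th power in `k`.
-/

namespace Pool.Agent.Lib.MP_2f3286_ag.Ep

open Koe

variable {k kb : Type*} [Field k] [Field kb] [Algebra k kb] [IsGalois k kb] [IsAlgClosed kb]
  [CharZero kb] {v : AbsoluteValue kb ℝ} {p : ℕ}

theorem clF_negn {p : ℕ} (hp : p ≠ 0) {F : Type*} [Field F] (hn : ∃ c : F, c ^ p = -1) (a : F) :
    clF p F (-a) = clF p F a := by
  by_cases ha : a = 0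
  · rw [ha, neg_zero]
  obtain ⟨c, hc⟩ := hn
  have hc0 : c ≠ 0 := by
    rintro rfl
    rw [zero_pow hp] at hc
    exact neg_ne_zero.2 one_ne_zero hc.symm
  have h1 : -a = a * c ^ p := by rw [hc]; ring
  rw [h1, clF_mul p ha (pow_ne_zero p hc0), (clF_eq_zero p hp (pow_ne_zero p hc0)).mpr ⟨c, rfl⟩,
    add_zero]

theorem exists_basen [Fact p.Prime] (hd : LocData v (⊤ : Subgroup Gal(kb/k)) p)
    {ζ : k} (hζ : IsPrimitiveRoot ζ p) (hneg : ∃ c : k, c ^ p = -1) :
    ∃ X : Base p k (Hp p k), X.v = vk k v ∧ X.cl = clF p k ∧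
      X.v X.π ^ X.N = vk k v (1 - ζ) ^ p ∧
      ∃ a₀ : k, a₀ ≠ 0 ∧ X.ε = clF p k a₀ ∧ (¬ ∃ b : k, b ^ p = a₀) ∧
        vk k v (a₀ - 1) ≤ vk k v (1 - ζ) ^ p := by
  have hp0 : p ≠ 0 := hd.prime.ne_zero
  obtain ⟨hl0, hl1, -, -⟩ := v_zeta hd hζ
  have hlp0 : 0 < vk k v (1 - ζ) ^ p := pow_pos hl0 p
  have hlp1 : vk k v (1 - ζ) ^ p < 1 := pow_lt_one₀ hl0.le hl1 hp0
  have hlne : (1 - ζ : k) ≠ 0 := (vk k v).pos_iff.mp hl0
  obtain ⟨π, hπ0, hπ1, hπ⟩ := exists_unif hd
  have hπne : π ≠ 0 := (vk k v).pos_iff.mp hπ0
  obtain ⟨n, hn⟩ := hπ (1 - ζ) hlne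
  have hn0 : 0 < n := by
    by_contra hc
    push Not at hc
    have h1 : 1 ≤ vk k v π ^ n := one_le_zpow_of_nonpos₀ hπ0 hπ1.le hc
    rw [← hn] at h1
    exact absurd h1 (not_le.mpr hl1)
  obtain ⟨e, rfl⟩ : ∃ e : ℕ, n = e := ⟨n.toNat, (Int.toNat_of_nonneg hn0.le).symm⟩
  have he : 0 < e := by exact_mod_cast hn0
  rw [zpow_natCast] at hn
  have hN : vk k v π ^ (e * p) = vk k v (1 - ζ) ^ p := by rw [pow_mul, hn]
  obtain ⟨φ, hadd, hsmall, ⟨z₁, hz₁, hφ₁⟩, hker, hdual⟩ := exists_phin hd hζ
  have hlayer := fun (z : k) (hz : vk k v z ≤ 1) =>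
    d6_layer hd hζ hadd (fun z hz => (hker z hz).mp) hz₁ hφ₁ hz
  set η : k := π ^ (e * p) / (1 - ζ) ^ p with hηdef
  have hη1 : vk k v η = 1 := by
    rw [hηdef, map_div₀, (vk k v).map_pow, (vk k v).map_pow, hN, div_self hlp0.ne']
  have hηne : η ≠ 0 := by
    intro h0
    rw [h0, (vk k v).map_zero] at hη1
    exact zero_ne_one hη1
  have hηm : ∀ z, π ^ (e * p) * z = (1 - ζ) ^ p * (η * z) := by
    intro z
    rw [hηdef]
    field_simp
  have hηv : ∀ z, vk k v (η * z) = vk k v z := by
    intro z
    rw [(vk k v).map_mul, hη1, one_mul]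
  have hsm : vk k v ((1 - ζ) ^ p * z₁) ≤ vk k v (1 - ζ) ^ p := by
    rw [(vk k v).map_mul, (vk k v).map_pow]
    exact mul_le_of_le_one_right hlp0.le hz₁
  have hun : vk k v (1 - (1 - ζ) ^ p * z₁) = 1 := d6_unit hd (hsm.trans_lt hlp1)
  refine ⟨{ v := vk k v
            na := vk_na hd
            π := π
            π_pos := hπ0
            π_lt := hπ1
            disc := hπ
            cl := clF p k
            cl_mul := fun a b ha hb => clF_mul p ha hb
            cl_neg := fun a => clF_negn hp0 hneg a
            cl_surj := fun h => clF_surj p h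
            fin := fin_hp hd
            N := e * p
            N_two := by
              have h2 := hd.prime.two_le
              nlinarith
            small := by
              intro x hx
              rw [hN] at hx
              have h1 : vk k v (1 - x - 1) < vk k v (1 - ζ) ^ p := by
                have h2 : (1 - x - 1 : k) = -x := by ring
                rw [h2, (vk k v).map_neg]
                exact hx
              have h3 : (1 - x : k) ≠ 0 := by
                intro h0
                have h4 := d6_unit hd (hx.trans hlp1)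
                rw [h0, (vk k v).map_zero] at h4
                exact zero_ne_one h4
              exact (clF_eq_zero p hp0 h3).mpr (hens hd hζ h1)
            perf := fun u hu => perfk hd hu
            step := by
              rintro x hx1 hx2 ⟨c, hc⟩
              rw [hN] at hx2
              obtain ⟨x', b, hb, hx', he⟩ := stepn hd hζ hx1 hx2 hc
              refine ⟨x', hx', ?_⟩
              have h3 : (1 - x' : k) ≠ 0 := by
                intro h0
                have h4 := d6_unit hd (hx'.trans hx1)
                rw [h0, (vk k v).map_zero] at h4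
                exact zero_ne_one h4
              rw [he, d6_cl_pow hp0 h3 hb]
            ε := clF p k (1 - (1 - ζ) ^ p * z₁)
            φ := fun z => φ (η * z)
            φ_add := by
              intro a b ha hb
              simp only [mul_add]
              exact hadd _ _ (by rw [hηv]; exact ha) (by rw [hηv]; exact hb)
            φ_small := fun a ha => hsmall _ (by rw [hηv]; exact ha)
            φ_one := by
              refine ⟨z₁ / η, ?_, ?_⟩
              · rw [map_div₀, hη1, div_one]
                exact hz₁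
              · rw [mul_div_cancel₀ z₁ hηne]
                exact hφ₁
            top := by
              intro z hz
              rw [hηm z]
              exact hlayer _ (by rw [hηv]; exact hz)
            dual := by
              intro ψ hψ hψ0
              obtain ⟨γ, hγ, hγ'⟩ := hdual ψ hψ hψ0
              refine ⟨γ / η, ?_, ?_⟩
              · rw [map_div₀, hη1, div_one]
                exact hγ
              · intro z hz
                rw [hγ' z hz]
                have h1 : η * (γ / η * z) = γ * z := by field_simp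
                rw [h1] }, rfl, rfl, hN, 1 - (1 - ζ) ^ p * z₁, ?_, rfl, ?_, ?_⟩
  · intro h0
    rw [h0, (vk k v).map_zero] at hun
    exact zero_ne_one hun
  · intro hb
    have := (hker z₁ hz₁).mpr hb
    rw [hφ₁] at this
    exact one_ne_zero this
  · have h1 : (1 - (1 - ζ) ^ p * z₁ - 1 : k) = -((1 - ζ) ^ p * z₁) := by ring
    rw [h1, (vk k v).map_neg]
    exact hsm

end Pool.Agent.Lib.MP_2f3286_ag.Ep
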