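import Pool.Agent.Lib.MP_2f3286_ag.Ep.D2
import Pool.Agent.Lib.MP_2f3286_ag.Ep.E4

/-!
# The unramified class, any prime

As Ep/E5.
-/

namespace Pool.Agent.Lib.MP_2f3286_ag.Ep

open Koe

section vdm

variable {K : Type*} [Field K] {v : AbsoluteValue K ℝ}

private def e5O (v : AbsoluteValue K ℝ) (na : ∀ a b, v (a + b) ≤ max (v a) (v b)) : Subring K where
  carrier := {x | v x ≤ 1}
  mul_mem' := by
    intro a b ha hb
    change v (a * b) ≤ 1
    rw [map_mul]
    exact mul_le_one₀ ha (v.nonneg b) hb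
  one_mem' := by
    change v 1 ≤ 1
    rw [map_one]
  add_mem' := fun {a b} ha hb => (na a b).trans (max_le ha hb)
  zero_mem' := by
    change v 0 ≤ 1
    rw [map_zero]; exact zero_le_one
  neg_mem' := by
    intro a ha
    change v (-a) ≤ 1
    rw [v.map_neg]; exact ha

private theorem e5_sum (na : ∀ a b, v (a + b) ≤ max (v a) (v b)) {ι : Type*} (s : Finset ι)
    (f : ι → K) {r : ℝ} (hr : 0 ≤ r) (h : ∀ i ∈ s, v (f i) ≤ r) : v (∑ i ∈ s, f i) ≤ r := by
  classical
  induction s using Finset.induction_on with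
  | empty => simpa using hr
  | insert a s ha ih =>
    rw [Finset.sum_insert ha]
    exact (na _ _).trans (max_le (h a (Finset.mem_insert_self a s))
      (ih fun i hi => h i (Finset.mem_insert_of_mem hi)))

/-- a system of linear equations with an integral Vandermonde matrix of unit determinant -/
private theorem e5_vdm (na : ∀ a b, v (a + b) ≤ max (v a) (v b)) {n : ℕ} (x : Fin n → K)
    (hx : ∀ i, v (x i) ≤ 1) (hxx : ∀ i j, i ≠ j → v (x i - x j) = 1) (c g : Fin n → K)
    (hg : ∀ i, ∑ m : Fin n, x i ^ (m : ℕ) * c m = g i) {r : ℝ} (hr : 0 ≤ r) (hgr : ∀ i, v (g i) ≤ r)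
    (m : Fin n) : v (c m) ≤ r := by
  let O := e5O v na
  let x' : Fin n → O := fun i => ⟨x i, hx i⟩
  have h1 : (Matrix.vandermonde x').map O.subtype = Matrix.vandermonde x := by
    ext i j
    simp [Matrix.vandermonde_apply, x']
  have h2 : ∀ i j, v ((Matrix.vandermonde x).adjugate i j) ≤ 1 := by
    intro i j
    have h3 := O.subtype.map_adjugate (Matrix.vandermonde x')
    rw [RingHom.mapMatrix_apply, RingHom.mapMatrix_apply, h1] at h3
    rw [← h3]
    exact ((Matrix.vandermonde x').adjugate i j).2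
  have h4 : v (Matrix.vandermonde x).det = 1 := by
    rw [Matrix.det_vandermonde, map_prod]
    refine Finset.prod_eq_one fun i _ => ?_
    rw [map_prod]
    refine Finset.prod_eq_one fun j hj => ?_
    exact hxx j i (Finset.mem_Ioi.1 hj).ne'
  have h5 : (Matrix.vandermonde x).mulVec c = g := by
    ext i
    rw [← hg i]
    rfl
  have h6 : (Matrix.vandermonde x).adjugate.mulVec g = (Matrix.vandermonde x).det • c := by
    rw [← h5, Matrix.mulVec_mulVec, Matrix.adjugate_mul, Matrix.smul_mulVec, Matrix.one_mulVec]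
  have h7 : v (c m) = v (((Matrix.vandermonde x).adjugate.mulVec g) m) := by
    rw [h6, Pi.smul_apply, smul_eq_mul, map_mul, h4, one_mul]
  have h8 : ((Matrix.vandermonde x).adjugate.mulVec g) m =
      ∑ j : Fin n, (Matrix.vandermonde x).adjugate m j * g j := rfl
  rw [h7, h8]
  refine e5_sum na _ _ hr fun j _ => ?_
  rw [map_mul]
  calc v ((Matrix.vandermonde x).adjugate m j) * v (g j) ≤ 1 * r :=
        mul_le_mul (h2 m j) (hgr j) (v.nonneg _) zero_le_one
    _ = r := one_mul r

end vdm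

variable {k kb : Type*} [Field k] [Field kb] [Algebra k kb] [IsGalois k kb] [IsAlgClosed kb]
  [CharZero kb] {v : AbsoluteValue kb ℝ} {p : ℕ}

omit [IsAlgClosed kb] [CharZero kb] in
/-- an element fixed by the Galois group of `k(w)` is a polynomial of degree `< n` in `w` if `w` is a
root of a monic polynomial of degree `n` -/
private theorem e5_poly {w γ : kb} (hγ : ∀ σ : Gal(kb/k), σ w = w → σ γ = γ)
    {Q : Polynomial k} (hQ : Q.Monic) (hQw : Polynomial.aeval w Q = 0) (hQd : Q.natDegree ≠ 0) :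
    ∃ P : Polynomial k, P.natDegree < Q.natDegree ∧ Polynomial.aeval w P = γ := by
  have h1 : γ ∈ IntermediateField.adjoin k ({w} : Set kb) := by
    rw [← InfiniteGalois.fixedField_fixingSubgroup (IntermediateField.adjoin k ({w} : Set kb))]
    rw [IntermediateField.mem_fixedField_iff]
    intro σ hσ
    refine hγ σ ?_
    exact (IntermediateField.mem_fixingSubgroup_iff _ σ).1 hσ w
      (IntermediateField.mem_adjoin_simple_self k w)
  have h2 : γ ∈ (IntermediateField.adjoin k ({w} : Set kb)).toSubalgebra := h1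
  rw [IntermediateField.adjoin_simple_toSubalgebra_of_isAlgebraic
    (Algebra.IsAlgebraic.isAlgebraic w), Algebra.adjoin_singleton_eq_range_aeval] at h2
  obtain ⟨P₀, hP₀⟩ := h2
  refine ⟨P₀ %ₘ Q, Polynomial.natDegree_modByMonic_lt P₀ hQ ?_, ?_⟩
  · intro h
    rw [h, Polynomial.natDegree_one] at hQd
    exact hQd rfl
  · rw [Polynomial.aeval_modByMonic_eq_self_of_root hQw]
    exact hP₀

theorem unr_valn [Fact p.Prime] (hd : LocData v (⊤ : Subgroup Gal(kb/k)) p)
    {ζ : k} (hζ : IsPrimitiveRoot ζ p) (C : Chi k kb p ζ) {a₀ : k} (h0 : a₀ ≠ 0)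
    (hnp : ¬ ∃ b : k, b ^ p = a₀) (ha : vk k v (a₀ - 1) ≤ vk k v (1 - ζ) ^ p) {γ : kb}
    (hγ : ∀ σ, C.χ (clF p k a₀) σ = 0 → σ γ = γ) : ∃ c : k, v γ = vk k v c := by
  have hp : p.Prime := Fact.out
  obtain ⟨hl0, hl1, -, hz⟩ := v_zeta hd hζ
  have hl : (1 - ζ : k) ≠ 0 := by
    intro h
    rw [h, map_zero] at hl0
    exact lt_irrefl _ hl0
  set l : kb := algebraMap k kb (1 - ζ) with hldef
  have hlb : l ≠ 0 := (_root_.map_ne_zero _).2 hl
  have hvl : v l = vk k v (1 - ζ) := rfl
  have hiso : ∀ (σ : Gal(kb/k)) (a : kb), v (σ a) = v a := fun σ a =>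
    hd.isom σ (Subgroup.mem_top σ) a
  have na := hd.nonarch
  -- the root
  obtain ⟨r₀, hr₀⟩ := IsAlgClosed.exists_pow_nat_eq (algebraMap k kb a₀) hp.pos
  obtain ⟨w, hw1, hw⟩ := near_one' (b := r₀) hd hζ (by
    rw [hr₀, ← map_one (algebraMap k kb), ← map_sub]
    exact ha)
  rw [hr₀] at hw
  rw [← hldef] at hw
  set r : kb := 1 + l * w with hrdef
  have hr0 : r ≠ 0 := by
    intro h
    rw [h, zero_pow hp.ne_zero] at hw
    exact h0 ((_root_.map_eq_zero _).1 hw.symm)
  have hvr : v r = 1 := by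
    have h1 : v (algebraMap k kb a₀) = 1 := by
      have h2 : v (algebraMap k kb a₀ - 1) < 1 := by
        have h3 : v (algebraMap k kb a₀ - 1) = vk k v (a₀ - 1) := by
          rw [vk_apply, (algebraMap k kb).map_sub, (algebraMap k kb).map_one]
        rw [h3]
        exact lt_of_le_of_lt ha (pow_lt_one₀ hl0.le hl1 hp.ne_zero)
      refine le_antisymm ?_ ?_
      · calc v (algebraMap k kb a₀) = v ((algebraMap k kb a₀ - 1) + 1) := by rw [sub_add_cancel]
          _ ≤ max (v (algebraMap k kb a₀ - 1)) (v 1) := na _ _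
          _ ≤ 1 := max_le h2.le (by rw [map_one])
      · by_contra hlt
        rw [not_le] at hlt
        have h4 : v (1 : kb) ≤ max (v (algebraMap k kb a₀)) (v (-(algebraMap k kb a₀ - 1))) := by
          calc v (1 : kb) = v (algebraMap k kb a₀ + -(algebraMap k kb a₀ - 1)) := by
                congr 1; ring
            _ ≤ _ := na _ _
        rw [map_one, v.map_neg] at h4
        exact absurd h4 (not_le.2 (max_lt hlt h2))
    have h5 : v r ^ p = 1 := by rw [← map_pow, hw, h1]
    exact (pow_eq_one_iff_of_nonneg (v.nonneg r) hp.ne_zero).1 h5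
  -- the class and the element `t`
  have hh : clF p k a₀ ≠ 0 := fun h => hnp ((clF_eq_zero p hp.ne_zero h0).1 h)
  obtain ⟨t, ht⟩ := C.exists_one hh
  set z : kb := algebraMap k kb ζ with hzdef
  have hzp : IsPrimitiveRoot z p := hζ.map_of_injective (algebraMap k kb).injective
  have hti : ∀ i : ℕ, i < p → (t ^ i) r = z ^ i * r := by
    intro i hi
    have h1 := C.root a₀ h0 r hw (t ^ i)
    rw [C.pow, ht, mul_one, ZMod.val_natCast_of_lt hi] at h1
    exact h1
  have htw : ∀ i : ℕ, i < p → l * (t ^ i) w = z ^ i * r - 1 := by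
    intro i hi
    have h1 := hti i hi
    rw [hrdef, map_add, map_one, map_mul, hldef, AlgEquiv.commutes] at h1
    rw [hrdef]
    linear_combination h1
  -- `γ` is a polynomial in `w`
  let Q : Polynomial k := (Polynomial.X + Polynomial.C (1 - ζ)⁻¹) ^ p -
    Polynomial.C (a₀ * ((1 - ζ) ^ p)⁻¹)
  have hQ1 : ((Polynomial.X + Polynomial.C (1 - ζ)⁻¹) ^ p : Polynomial k).Monic :=
    (Polynomial.monic_X_add_C _).pow p
  have hQ1d : ((Polynomial.X + Polynomial.C (1 - ζ)⁻¹) ^ p : Polynomial k).natDegree = p := by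
    rw [Polynomial.natDegree_pow, Polynomial.natDegree_X_add_C, mul_one]
  have hQ1dd : ((Polynomial.X + Polynomial.C (1 - ζ)⁻¹) ^ p : Polynomial k).degree = p := by
    rw [Polynomial.degree_eq_natDegree hQ1.ne_zero, hQ1d]
  have hQm : Q.Monic := by
    refine hQ1.sub_of_left ?_
    rw [hQ1dd]
    refine lt_of_le_of_lt Polynomial.degree_C_le ?_
    exact_mod_cast hp.pos
  have hQd : Q.natDegree = p := by
    change Polynomial.natDegree (_ - Polynomial.C _) = p
    rw [Polynomial.natDegree_sub_C, hQ1d]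
  have hQw : Polynomial.aeval w Q = 0 := by
    change Polynomial.aeval w (_ - Polynomial.C _) = 0
    rw [map_sub, map_pow, map_add, Polynomial.aeval_X, Polynomial.aeval_C, Polynomial.aeval_C,
      map_mul, map_inv₀, map_inv₀, map_pow, ← hldef]
    have h1 : w + l⁻¹ = l⁻¹ * r := by
      rw [hrdef]
      field_simp
      ring
    rw [h1, mul_pow, hw, inv_pow]
    ring
  have hγ' : ∀ σ : Gal(kb/k), σ w = w → σ γ = γ := by
    intro σ hσ
    refine hγ σ ?_
    have h1 := C.root a₀ h0 r hw σ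
    have h2 : σ r = r := by
      rw [hrdef, map_add, map_one, map_mul, hσ, hldef, AlgEquiv.commutes]
    rw [h2] at h1
    have h3 : z ^ (C.χ (clF p k a₀) σ).val = 1 :=
      mul_right_cancel₀ hr0 (by rw [one_mul]; exact h1.symm)
    have h4 : p ∣ (C.χ (clF p k a₀) σ).val := (hzp.pow_eq_one_iff_dvd _).1 h3
    have h5 : (C.χ (clF p k a₀) σ).val = 0 :=
      Nat.eq_zero_of_dvd_of_lt h4 (ZMod.val_lt _)
    exact (ZMod.val_eq_zero _).1 h5
  obtain ⟨P, hPd, hP⟩ := e5_poly hγ' hQm hQw (by rw [hQd]; exact hp.ne_zero)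
  rw [hQd] at hPd
  -- the equations
  have heq : ∀ σ : Gal(kb/k), ∑ m : Fin p, (σ w) ^ (m : ℕ) * algebraMap k kb (P.coeff m) = σ γ := by
    intro σ
    have h1 : σ γ = Polynomial.aeval (σ w) P := by
      rw [← hP]
      exact (Polynomial.aeval_algHom_apply σ.toAlgHom w P).symm
    rw [h1, Polynomial.aeval_eq_sum_range' hPd, Finset.sum_range]
    refine Finset.sum_congr rfl fun m _ => ?_
    rw [Algebra.smul_def, mul_comm]
  by_cases hγ0 : γ = 0
  · exact ⟨0, by rw [hγ0, map_zero, map_zero]⟩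
  have hc : ∀ m : Fin p, v (algebraMap k kb (P.coeff m)) ≤ v γ := by
    refine e5_vdm na (fun i : Fin p => (t ^ (i : ℕ)) w) ?_ ?_ _ (fun i : Fin p => (t ^ (i : ℕ)) γ)
      ?_ (v.nonneg γ) ?_
    · intro i
      rw [hiso]; exact hw1
    · intro i j hij
      have h1 : l * ((t ^ (i : ℕ)) w - (t ^ (j : ℕ)) w) = (z ^ (i : ℕ) - z ^ (j : ℕ)) * r := by
        rw [mul_sub, htw i i.2, htw j j.2]; ring
      have h2 : v (z ^ (i : ℕ) - z ^ (j : ℕ)) = v l := by
        have h3 : ∀ a b : ℕ, a < b → b < p → v (z ^ b - z ^ a) = v l := by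
          intro a b hab hb
          have h4 : z ^ b - z ^ a = z ^ a * (z ^ (b - a) - 1) := by
            rw [mul_sub, ← pow_add, mul_one, Nat.add_sub_cancel' hab.le]
          have h5 : v z = 1 := by
            have h6 : v z ^ p = 1 := by rw [← map_pow, hzp.pow_eq_one, map_one]
            exact (pow_eq_one_iff_of_nonneg (v.nonneg z) hp.ne_zero).1 h6
          rw [h4, map_mul, map_pow, h5, one_pow, one_mul, hvl]
          refine hz _ ?_ ?_
          · rw [← pow_mul, mul_comm, pow_mul, hzp.pow_eq_one, one_pow]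
          · intro h
            have h7 := (hzp.pow_eq_one_iff_dvd _).1 h
            have h8 : p ≤ b - a := Nat.le_of_dvd (Nat.sub_pos_of_lt hab) h7
            omega
        rcases lt_trichotomy (i : ℕ) (j : ℕ) with h | h | h
        · rw [← v.map_neg, neg_sub]
          exact h3 i j h j.2
        · exact absurd (Fin.ext h) hij
        · exact h3 j i h i.2
      have h9 : v l * v ((t ^ (i : ℕ)) w - (t ^ (j : ℕ)) w) = v l * 1 := by
        rw [← map_mul, h1, map_mul, h2, hvr]
      exact mul_left_cancel₀ ((v.ne_zero_iff).2 hlb) h9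
    · intro i
      exact heq (t ^ (i : ℕ))
    · intro i
      rw [hiso]
  -- some coefficient has the value of `γ`
  by_contra hcon
  push Not at hcon
  have hlt : ∀ m : Fin p, v (algebraMap k kb (P.coeff m)) < v γ := fun m =>
    lt_of_le_of_ne (hc m) (fun h => hcon (P.coeff m) h.symm)
  have hne : (Finset.univ : Finset (Fin p)).Nonempty := ⟨⟨0, hp.pos⟩, Finset.mem_univ _⟩
  obtain ⟨m₀, -, hm₀⟩ := Finset.exists_max_image (Finset.univ : Finset (Fin p))
    (fun m => v (algebraMap k kb (P.coeff m))) hne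
  have h1 : v γ ≤ v (algebraMap k kb (P.coeff m₀)) := by
    have h2 := heq 1
    rw [AlgEquiv.one_apply, AlgEquiv.one_apply] at h2
    rw [← h2]
    refine e5_sum na _ _ (v.nonneg _) fun m hm => ?_
    rw [map_mul, map_pow]
    calc v w ^ (m : ℕ) * v (algebraMap k kb (P.coeff m))
        ≤ 1 * v (algebraMap k kb (P.coeff m₀)) :=
          mul_le_mul (pow_le_one₀ (v.nonneg w) hw1) (hm₀ m hm) (v.nonneg _) zero_le_one
      _ = _ := one_mul _
  exact absurd (hlt m₀) (not_lt.2 h1)

theorem ram_cupn [Fact p.Prime] (hd : LocData v (⊤ : Subgroup Gal(kb/k)) p)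
    {ζ : k} (hζ : IsPrimitiveRoot ζ p) (C : Chi k kb p ζ) {a₀ : k} (h0 : a₀ ≠ 0)
    (hnp : ¬ ∃ b : k, b ^ p = a₀) (ha : vk k v (a₀ - 1) ≤ vk k v (1 - ζ) ^ p) {b : k}
    (hb : b ≠ 0) (hcup : cup hζ C (clF p k a₀) (clF p k b) = 0) :
    ∃ c : k, vk k v b = vk k v c ^ p := by
  have hp : p.Prime := Fact.out
  have hh : clF p k a₀ ≠ 0 := fun h => hnp ((clF_eq_zero p hp.ne_zero h0).1 h)
  obtain ⟨t, ht⟩ := C.exists_one hh
  obtain ⟨γ, -, hγ, hbγ⟩ := norm_cup hζ C ht hb hcup
  obtain ⟨c, hc⟩ := unr_valn hd hζ C h0 hnp ha hγ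
  refine ⟨c, ?_⟩
  rw [vk_apply, hbγ, map_prod, ← hc]
  rw [Finset.prod_congr rfl (fun i _ => hd.isom (t ^ i) (Subgroup.mem_top _) γ)]
  rw [Finset.prod_const, Finset.card_range]

end Pool.Agent.Lib.MP_2f3286_ag.Ep
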