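import Pool.Agent.Lib.MP_2f3286_ag.Ep.F3
import Pool.Agent.Lib.MP_2f3286_ag.Ep.C5
import Pool.Agent.Lib.MP_2f3286_ag.Ep2.D6
import Pool.Agent.Lib.MP_2f3286_ag.Ep2.E5

/-!
# The data of a local field with a section, any prime
-/

namespace Pool.Agent.Lib.MP_2f3286_ag.Ep

open Koe

variable {k kb Ω K : Type*} [Field k] [Field kb] [Algebra k kb] [IsGalois k kb] [IsAlgClosed kb]
  [CharZero kb] [Field Ω] [Algebra kb Ω] [Field K] [Algebra k K] [Algebra K Ω] {p : ℕ}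
  {v : AbsoluteValue kb ℝ}

/-- a bilinear form with the Steinberg relation is alternating if `-1` has the class zero -/
theorem alt_of_st {F H Z : Type*} [Field F] [AddCommGroup H] [AddCommGroup Z] (cl : F → H)
    (cl_mul : ∀ a b, a ≠ 0 → b ≠ 0 → cl (a * b) = cl a + cl b) (cl_neg : ∀ a, cl (-a) = cl a)
    (cl_surj : ∀ h : H, ∃ a, a ≠ 0 ∧ cl a = h) (B : H →+ H →+ Z)
    (st : ∀ x, x ≠ 0 → x ≠ 1 → B (cl x) (cl (1 - x)) = 0) (h : H) : B h h = 0 := by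
  obtain ⟨a, ha, rfl⟩ := cl_surj h
  have cl_one : cl 1 = 0 := by
    have h := cl_mul 1 1 one_ne_zero one_ne_zero
    rw [mul_one] at h
    exact left_eq_add.mp h
  by_cases ha1 : a = 1
  · rw [ha1, cl_one, map_zero]
  have hi : cl a⁻¹ = -cl a := by
    have h := cl_mul a a⁻¹ ha (inv_ne_zero ha)
    rw [mul_inv_cancel₀ ha, cl_one] at h
    exact (neg_eq_of_add_eq_zero_right h.symm).symm
  have h1a : (1 - a : F) ≠ 0 := sub_ne_zero.2 (Ne.symm ha1)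
  have h1 := st a ha ha1
  have h2 := st a⁻¹ (inv_ne_zero ha) (fun h0 => ha1 (inv_eq_one.1 h0))
  have h3 : (1 - a⁻¹ : F) = -((1 - a) * a⁻¹) := by field_simp; ring
  rw [h3, cl_neg, cl_mul _ _ h1a (inv_ne_zero ha), hi, map_neg, AddMonoidHom.neg_apply, map_add,
    h1, zero_add, map_neg, neg_neg] at h2
  exact h2

theorem exists_dat0n [Fact p.Prime] (hd : LocData v (⊤ : Subgroup Gal(kb/k)) p)
    {ζ : k} (hζ : IsPrimitiveRoot ζ p) (hneg : ∃ c : k, c ^ p = -1)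
    {s : Gal(kb/k) →* (Ω ≃+* Ω)} (hs : SecK s p K)
    (Y : Kap p k K) :
    ∃ X : Dat p k (Hp p k), X.v = vk k v ∧ X.cl = clF p k ∧
      X.v X.π ^ X.N = vk k v (1 - ζ) ^ p ∧
      ∀ x : K, x ≠ 0 → x ≠ 1 → X.ω (Y.κ x) (Y.κ (1 - x)) = 0 := by
  obtain ⟨X₀, hv, hcl, hN, a₀, ha0, hε, hnp, hav⟩ := exists_basen hd hζ hneg
  obtain ⟨C⟩ := exists_chi (kb := kb) hζ
  have hst : ∀ x, x ≠ 0 → x ≠ 1 → cup hζ C (X₀.cl x) (X₀.cl (1 - x)) = 0 := fun x h0 h1 => by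
    rw [hcl]
    exact stk hζ C hs Y h0 h1
  obtain ⟨D, hD, hDB⟩ := exists_dat (p := p)
    ({ X₀ with
        B := cup hζ C
        alt := fun h => alt_of_st X₀.cl X₀.cl_mul X₀.cl_neg X₀.cl_surj (cup hζ C) hst h
        st := hst
        ram := fun b hb hcup => by
          rw [hε, hcl] at hcup
          obtain ⟨c, hc⟩ := ram_cupn hd hζ C ha0 hnp hav hb hcup
          exact ⟨c, by rw [hv]; exact hc⟩ } : Pre p k (Hp p k) (Zc k kb))
  have e : D.toBase = X₀ := hD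
  refine ⟨D, ?_, ?_, ?_, fun x h0 h1 => hDB _ _ (stK hζ C hs Y h0 h1)⟩
  · rw [e]; exact hv
  · rw [e]; exact hcl
  · rw [e]; exact hN

end Pool.Agent.Lib.MP_2f3286_ag.Ep
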