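import Pool.Agent.Lib.MP_2f3286_ag.Ep2.F4
import Pool.Agent.Lib.MP_2f3286_ag.Ep2.B5
import Pool.Agent.Lib.MP_2f3286_ag.Ep.F6

/-!
# The values of the elements of `K`, any prime
-/

namespace Pool.Agent.Lib.MP_2f3286_ag.Ep

open Koe

variable {k kb Ω K : Type*} [Field k] [Field kb] [Algebra k kb] [IsGalois k kb] [IsAlgClosed kb]
  [CharZero kb] [Field Ω] [Algebra kb Ω] [Field K] [Algebra k K] [Algebra K Ω] {p : ℕ}
  {v : AbsoluteValue kb ℝ} {Fb : Type*} [Field Fb]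

theorem v0_alln [Fact p.Prime] (hd : LocData v (⊤ : Subgroup Gal(kb/k)) p)
    {ζ : k} (hζ : IsPrimitiveRoot ζ p) (hneg : ∃ c : k, c ^ p = -1) {s : Gal(kb/k) →* (Ω ≃+* Ω)} (hs : SecK s p K)
    {w : AbsoluteValue Fb ℝ} {ι : kb →+* Fb} (hc : Cpl0 k v p w ι) : V0 k K v w ι p := by
  obtain ⟨Y⟩ := exists_kap (Fact.out : p.Prime) hs
  obtain ⟨X, hX, hcl, hN, hst⟩ := exists_dat0n hd hζ hneg hs Y
  obtain ⟨P, hκ, hw, hj⟩ := exists_pl hd hc X hX hcl Y hst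
  have h2 : (2 : clo k w hc.na ι) ≠ 0 := by
    intro h
    have h1 : (clo k w hc.na ι).subtype 2 = 0 := by rw [h, map_zero]
    have h3 : ι (2 : kb) = 0 := by
      rw [map_ofNat] at h1 ⊢
      exact h1
    exact two_ne_zero ((map_eq_zero ι).mp h3)
  have key : ∀ {x : K} {z : Fb}, IsV0 k v w ι p x z ↔
      ∃ h : z ∈ clo k w hc.na ι, P.IsVal x ⟨z, h⟩ :=
    fun {x z} => isV0_iff hd hζ hc hX hcl hN P hκ hw hj
  refine ⟨fun x => ?_, fun x z z' h h' => ?_, fun x y z z' h h' => ?_, fun x y z z' h h' => ?_,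
    fun a => ?_⟩
  · rcases P.val_or x with ⟨z, hz⟩ | ⟨hx, h⟩
    · exact Or.inl ⟨z, key.mpr ⟨z.2, hz⟩⟩
    · exact Or.inr ⟨hx, key.mpr ⟨(clo k w hc.na ι).zero_mem, h⟩⟩
  · obtain ⟨h1, h1'⟩ := key.mp h
    obtain ⟨h3, h3'⟩ := key.mp h'
    exact congrArg Subtype.val (P.val_unique h1' h3')
  · obtain ⟨h1, h1'⟩ := key.mp h
    obtain ⟨h3, h3'⟩ := key.mp h'
    exact key.mpr ⟨add_mem h1 h3, P.val_add h1' h3'⟩
  · obtain ⟨h1, h1'⟩ := key.mp h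
    obtain ⟨h3, h3'⟩ := key.mp h'
    exact key.mpr ⟨mul_mem h1 h3, P.val_muln h2 h1' h3'⟩
  · have h := P.val_alg a
    refine key.mpr ⟨?_, ?_⟩
    · rw [← hj]; exact (P.j a).2
    · have h1 : (⟨ι (algebraMap k kb a), by rw [← hj]; exact (P.j a).2⟩ : clo k w hc.na ι) =
          P.j a := Subtype.ext (hj a).symm
      rw [h1]; exact h

end Pool.Agent.Lib.MP_2f3286_ag.Ep
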