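import Pool.Agent.Lib.MP_2f3286_ag.Ep2.F6
import Pool.Agent.Lib.MP_2f3286_ag.Ep.G2

/-!
# The values of the elements fixed by `t(U)`, any prime
-/

namespace Pool.Agent.Lib.MP_2f3286_ag.Ep

open Koe

variable {k kb Ω : Type*} [Field k] [Field kb] [Algebra k kb] [IsGalois k kb] [IsAlgClosed kb]
  [CharZero kb] [Field Ω] [Algebra kb Ω] {D : Subgroup Gal(kb/k)} {p : ℕ}
  {v : AbsoluteValue kb ℝ} {Fb : Type*} [Field Fb]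

theorem vU_alln [Fact p.Prime] (hd : LocData v D p) {t : D →* (Ω ≃+* Ω)}
    (ht : SecD t p) {w : AbsoluteValue Fb ℝ} {ι : kb →+* Fb} (hc : Cpl D v p w ι)
    {U : Subgroup Gal(kb/k)} (hU : FinIn D U) (hζ : ∃ ζ ∈ fixk U, IsPrimitiveRoot ζ p)
    (hneg : ∃ c ∈ fixk U, c ^ p = -1) :
    VU t v w ι p U := by
  letI := algU t ht.sec U
  have h : ∀ τ, resE U τ ∈ D := fun τ => hU.1 (resE_mem hU.2.1 τ)
  obtain ⟨ζ, hζU, hζp⟩ := hζ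
  have hζ' : IsPrimitiveRoot (⟨ζ, mem_EU.2 hζU⟩ : EU U) p :=
    IsPrimitiveRoot.of_map_of_injective (f := algebraMap (EU U) kb) hζp
      (algebraMap (EU U) kb).injective
  have hneg' : ∃ c : EU U, c ^ p = -1 := by
    obtain ⟨c, hc, hcp⟩ := hneg
    exact ⟨⟨c, mem_EU.2 hc⟩, Subtype.ext hcp⟩
  have hV : V0 (EU U) (fixT t U) v w ι p :=
    v0_alln (locE hd hU) hζ' hneg' (secK_E ht hU h) (cplE hc hU)
  refine { or_ := ?_, uni := ?_, add := ?_, mul := ?_, alg := ?_ }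
  · intro x hx
    rcases hV.or_ ⟨x, hx⟩ with ⟨z, hz⟩ | ⟨h1, h2⟩
    · exact Or.inl ⟨z, (isV_iff ht ⟨x, hx⟩ z).2 hz⟩
    · refine Or.inr ⟨fun h3 => h1 (Subtype.ext h3), ?_⟩
      exact (isV_iff ht (⟨x, hx⟩⁻¹) 0).2 h2
  · intro x z z' h1 h2
    exact hV.uni ⟨x, h1.1⟩ z z' ((isV_iff ht ⟨x, h1.1⟩ z).1 h1) ((isV_iff ht ⟨x, h1.1⟩ z').1 h2)
  · intro x y z z' h1 h2
    have h3 := hV.add ⟨x, h1.1⟩ ⟨y, h2.1⟩ z z' ((isV_iff ht ⟨x, h1.1⟩ z).1 h1)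
      ((isV_iff ht ⟨y, h2.1⟩ z').1 h2)
    exact (isV_iff ht ((⟨x, h1.1⟩ : fixT t U) + ⟨y, h2.1⟩) (z + z')).2 h3
  · intro x y z z' h1 h2
    have h3 := hV.mul ⟨x, h1.1⟩ ⟨y, h2.1⟩ z z' ((isV_iff ht ⟨x, h1.1⟩ z).1 h1)
      ((isV_iff ht ⟨y, h2.1⟩ z').1 h2)
    exact (isV_iff ht ((⟨x, h1.1⟩ : fixT t U) * ⟨y, h2.1⟩) (z * z')).2 h3
  · intro a ha
    have h3 := hV.alg ⟨a, mem_EU.2 ha⟩
    exact (isV_iff ht (algebraMap (EU U) (fixT t U) ⟨a, mem_EU.2 ha⟩) (ι a)).2 h3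

end Pool.Agent.Lib.MP_2f3286_ag.Ep
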