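import Pool.Agent.Lib.MP_2f3286_ag.Ep2.G2
import Pool.Agent.Lib.MP_2f3286_ag.Ep.G6

/-!
# The place, any prime
-/

namespace Pool.Agent.Lib.MP_2f3286_ag.Ep

open Koe

variable {k kb Ω : Type*} [Field k] [Field kb] [Algebra k kb] [IsGalois k kb] [IsAlgClosed kb]
  [CharZero kb] [Field Ω] [Algebra kb Ω] {D : Subgroup Gal(kb/k)} {p : ℕ}
  {v : AbsoluteValue kb ℝ} {Fb : Type*} [Field Fb]

/-- the subgroups used for the place -/
def Gdn (D : Subgroup Gal(kb/k)) (p : ℕ) (U : Subgroup Gal(kb/k)) : Prop :=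
  FinIn D U ∧ (∀ σ ∈ D, ∀ u ∈ U, σ⁻¹ * u * σ ∈ U) ∧ (∃ ζ ∈ fixk U, IsPrimitiveRoot ζ p) ∧
    ∃ c ∈ fixk U, c ^ p = -1

theorem exists_gdn (hd : LocData v D p) {t : D →* (Ω ≃+* Ω)} (ht : SecD t p) (x : Ω) :
    ∃ U, Gdn D p U ∧ x ∈ fixT t U := by
  classical
  have hp0 : p ≠ 0 := hd.prime.ne_zero
  obtain ⟨V, hVo, hV⟩ := ht.cont x
  obtain ⟨ζ, hζ⟩ : ∃ ζ : kb, IsPrimitiveRoot ζ p := by
    have h1 : (Polynomial.cyclotomic p kb).degree ≠ 0 := by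
      rw [Polynomial.degree_cyclotomic]
      have : 0 < p.totient := Nat.totient_pos.2 (Nat.pos_of_ne_zero hp0)
      exact_mod_cast this.ne'
    obtain ⟨ζ, hζ⟩ := IsAlgClosed.exists_root (Polynomial.cyclotomic p kb) h1
    have : NeZero (p : kb) := ⟨Nat.cast_ne_zero.2 hp0⟩
    exact ⟨ζ, Polynomial.isRoot_cyclotomic_iff.1 hζ⟩
  obtain ⟨c, hc⟩ : ∃ c : kb, c ^ p = -1 := IsAlgClosed.exists_pow_nat_eq _ hd.prime.pos
  set S : Subgroup Gal(kb/k) := MulAction.stabilizer Gal(kb/k) ζ ⊓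
    MulAction.stabilizer Gal(kb/k) c with hS
  have hSo : IsOpen (S : Set Gal(kb/k)) :=
    (stabilizer_isOpen_of_isIntegral ζ).inter (stabilizer_isOpen_of_isIntegral c)
  have hVS : IsOpen ((V ⊓ S : Subgroup Gal(kb/k)) : Set Gal(kb/k)) := hVo.inter hSo
  have hfin : (V ⊓ S).FiniteIndex := by
    have : Finite (Gal(kb/k) ⧸ (V ⊓ S)) := Subgroup.quotient_finite_of_isOpen _ hVS
    exact Subgroup.finiteIndex_of_finite_quotient
  set W : Subgroup Gal(kb/k) := (V ⊓ S).normalCore with hW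
  have hWn : W.Normal := Subgroup.normalCore_normal _
  have hWle : W ≤ V ⊓ S := Subgroup.normalCore_le _
  have hWc : IsClosed (W : Set Gal(kb/k)) :=
    Subgroup.normalCore_isClosed _ (Subgroup.isClosed_of_isOpen _ hVS)
  have hWf : W.FiniteIndex := inferInstance
  refine ⟨D ⊓ W, ⟨⟨inf_le_left, ?_, ?_⟩, ?_, ⟨ζ, ?_, hζ⟩, c, ?_, hc⟩, ?_⟩
  · rw [Subgroup.coe_inf]
    exact hd.closed.inter hWc
  · rw [Subgroup.inf_relIndex_left]
    have h2 : (W.subgroupOf D).FiniteIndex := inferInstance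
    exact h2.index_ne_zero
  · intro σ hσ u hu
    refine ⟨D.mul_mem (D.mul_mem (D.inv_mem hσ) hu.1) hσ, ?_⟩
    have := hWn.conj_mem u hu.2 σ⁻¹
    rwa [inv_inv] at this
  · intro σ hσ
    exact (hWle hσ.2).2.1
  · intro σ hσ
    exact (hWle hσ.2).2.2
  · intro σ hσ
    exact hV σ (hWle hσ.2).1

theorem gdn_inf {U U' : Subgroup Gal(kb/k)} (h : Gdn D p U) (h' : Gdn D p U') :
    Gdn D p (U ⊓ U') := by
  obtain ⟨⟨h1, h2, h3⟩, h4, ⟨ζ, h5, h6⟩, c, h7, h8⟩ := h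
  obtain ⟨⟨h1', h2', h3'⟩, h4', -⟩ := h'
  refine ⟨⟨inf_le_left.trans h1, ?_, ?_⟩, fun σ hσ u hu => ⟨h4 σ hσ u hu.1, h4' σ hσ u hu.2⟩,
    ⟨ζ, fun σ hσ => h5 σ hσ.1, h6⟩, c, fun σ hσ => h7 σ hσ.1, h8⟩
  · rw [Subgroup.coe_inf]
    exact h2.inter h2'
  · exact Subgroup.relIndex_inf_ne_zero h3 h3'

theorem val_alln [Fact p.Prime] (hd : LocData v D p) {t : D →* (Ω ≃+* Ω)}
    (ht : SecD t p) {w : AbsoluteValue Fb ℝ} {ι : kb →+* Fb} (hc : Cpl D v p w ι)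
    {U U' : Subgroup Gal(kb/k)} (hU : Gdn D p U) (hU' : Gdn D p U') {x : Ω} {z : Fb}
    (hx : x ∈ fixT t U) (h : IsV t v w ι p U' x z) : IsV t v w ι p U x z := by
  have h1 := gdn_inf hU hU'
  have hV := vU_alln hd  ht hc hU.1 hU.2.2.1 hU.2.2.2
  have hV' := vU_alln hd  ht hc hU'.1 hU'.2.2.1 hU'.2.2.2
  have hV1 := vU_alln hd  ht hc h1.1 h1.2.2.1 h1.2.2.2
  have h2 : IsV t v w ι p (U ⊓ U') x z :=
    (isV_iff_down hd ht hc hU'.1 h1.1 inf_le_right h1.2.1 hV' hV1 h.1).2 h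
  exact isV_up hd ht hc hU.1 h1.1 inf_le_left h1.2.1 hV1 hx h2

/-- the elementary form of the theorem of Pop: a section over a `p`-adic field of a field closed
under `p`-th roots is that of a place -/
theorem place_pn [Fact p.Prime] (hd : LocData v D p) {t : D →* (Ω ≃+* Ω)}
    (ht : SecD t p) {w : AbsoluteValue Fb ℝ} {ι : kb →+* Fb} (hc : Cpl D v p w ι) :
    ∃ (A : ValuationSubring Ω) (φ : A →+* Fb),
      (∀ a : kb, ∃ h : algebraMap kb Ω a ∈ A, φ ⟨algebraMap kb Ω a, h⟩ = ι a) ∧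
      (∀ x : A, φ x ≠ 0 → (x : Ω)⁻¹ ∈ A) ∧
      ∀ (σ : D) (τ : Fb →+* Fb), (∀ z, w (τ z) = w z) →
        (∀ a, ι ((σ : Gal(kb/k)) a) = τ (ι a)) →
        ∀ x : A, ∃ h : t σ x ∈ A, φ ⟨t σ x, h⟩ = τ (φ x) := by
  classical
  have hgd := fun x : Ω => exists_gdn hd ht x
  have hVU : ∀ U, Gdn D p U → VU t v w ι p U := fun U hU => vU_alln hd  ht hc hU.1 hU.2.2.1 hU.2.2.2
  have hmono : ∀ {U U' : Subgroup Gal(kb/k)} {x : Ω}, U' ≤ U → x ∈ fixT t U → x ∈ fixT t U' :=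
    fun hle hx σ hσ => hx σ (hle hσ)
  let Val : Ω → Fb → Prop := fun x z => ∃ U, Gdn D p U ∧ IsV t v w ι p U x z
  have hall : ∀ {x z}, Val x z → ∀ U, Gdn D p U → x ∈ fixT t U → IsV t v w ι p U x z := by
    rintro x z ⟨U', hU', h⟩ U hU hx
    exact val_alln hd  ht hc hU hU' hx h
  have huni : ∀ {x z z'}, Val x z → Val x z' → z = z' := by
    intro x z z' h h'
    obtain ⟨U, hU, hx⟩ := hgd x
    exact (hVU U hU).uni x z z' (hall h U hU hx) (hall h' U hU hx)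
  have hpair : ∀ x y : Ω, ∃ U, Gdn D p U ∧ x ∈ fixT t U ∧ y ∈ fixT t U := by
    intro x y
    obtain ⟨U, hU, hx⟩ := hgd x
    obtain ⟨U', hU', hy⟩ := hgd y
    exact ⟨U ⊓ U', gdn_inf hU hU', hmono inf_le_left hx, hmono inf_le_right hy⟩
  have hadd : ∀ {x y z z'}, Val x z → Val y z' → Val (x + y) (z + z') := by
    intro x y z z' h h'
    obtain ⟨U, hU, hx, hy⟩ := hpair x y
    exact ⟨U, hU, (hVU U hU).add x y z z' (hall h U hU hx) (hall h' U hU hy)⟩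
  have hmul : ∀ {x y z z'}, Val x z → Val y z' → Val (x * y) (z * z') := by
    intro x y z z' h h'
    obtain ⟨U, hU, hx, hy⟩ := hpair x y
    exact ⟨U, hU, (hVU U hU).mul x y z z' (hall h U hU hx) (hall h' U hU hy)⟩
  have halg : ∀ a : kb, Val (algebraMap kb Ω a) (ι a) := by
    intro a
    obtain ⟨U, hU, hx⟩ := hgd (algebraMap kb Ω a)
    refine ⟨U, hU, (hVU U hU).alg a fun σ hσ => ?_⟩
    have h1 := hx ⟨σ, hU.1.1 hσ⟩ hσ
    rw [ht.sec] at h1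
    exact (algebraMap kb Ω).injective h1
  have hone : Val 1 1 := by
    have := halg 1
    rwa [map_one, map_one] at this
  have hzero : Val 0 0 := by
    have := halg 0
    rwa [map_zero, map_zero] at this
  have hor : ∀ x : Ω, (∃ z, Val x z) ∨ (x ≠ 0 ∧ Val x⁻¹ 0) := by
    intro x
    obtain ⟨U, hU, hx⟩ := hgd x
    rcases (hVU U hU).or_ x hx with ⟨z, hz⟩ | ⟨h0, h1⟩
    · exact Or.inl ⟨z, U, hU, hz⟩
    · exact Or.inr ⟨h0, U, hU, h1⟩
  let A : ValuationSubring Ω :=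
    { carrier := {x | ∃ z, Val x z}
      mul_mem' := by
        rintro x y ⟨z, hz⟩ ⟨z', hz'⟩
        exact ⟨z * z', hmul hz hz'⟩
      one_mem' := ⟨1, hone⟩
      add_mem' := by
        rintro x y ⟨z, hz⟩ ⟨z', hz'⟩
        exact ⟨z + z', hadd hz hz'⟩
      zero_mem' := ⟨0, hzero⟩
      neg_mem' := by
        rintro x ⟨z, hz⟩
        have h1 := hmul (halg (-1)) hz
        rw [map_neg, map_one, neg_one_mul] at h1
        exact ⟨_, h1⟩
      mem_or_inv_mem' := by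
        intro x
        rcases hor x with h | ⟨-, h⟩
        · exact Or.inl h
        · exact Or.inr ⟨0, h⟩ }
  have hA : ∀ x : A, ∃ z, Val (x : Ω) z := fun x => x.2
  choose f hf using hA
  let φ : A →+* Fb :=
    { toFun := f
      map_one' := huni (hf 1) hone
      map_zero' := huni (hf 0) hzero
      map_mul' := fun x y => huni (hf (x * y)) (hmul (hf x) (hf y))
      map_add' := fun x y => huni (hf (x + y)) (hadd (hf x) (hf y)) }
  have hφ : ∀ x : A, Val (x : Ω) (φ x) := hf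
  refine ⟨A, φ, fun a => ⟨⟨_, halg a⟩, huni (hφ _) (halg a)⟩, fun x hx => ?_, fun σ τ hτ hστ x => ?_⟩
  · rcases hor (x : Ω)⁻¹ with h | ⟨-, h⟩
    · exact h
    · rw [inv_inv] at h
      exact absurd (huni (hφ x) h) hx
  · obtain ⟨U, hU, hxU⟩ := hgd (x : Ω)
    have h1 := isV_conj ht hU.1 hU.2.1 σ hτ hστ (hall (hφ x) U hU hxU)
    have h2 : Val (t σ (x : Ω)) (τ (φ x)) := ⟨U, hU, h1⟩
    exact ⟨⟨_, h2⟩, huni (hφ _) h2⟩

end Pool.Agent.Lib.MP_2f3286_ag.Ep
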