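import Pool.Agent.Lib.MP_2f3286_ag.Ep2.G6
import Pool.Agent.Lib.MP_2f3286_ag.Ep.G7
import Pool.Agent.Lib.MP_2f3286_bir.Place

/-!
# The local place above `p` of a section of a field closed under `p`-th roots, for every prime `p`
-/

open IsDedekindDomain NumberField

namespace Pool.Agent.Lib.MP_2f3286_ag.Ep

open Koe

theorem local_place_pn {p : ℕ} (hp : p.Prime) {k : Type*} [Field k] [NumberField k]
    {K M : Type*} [Field K] [Field M] [Algebra K M] [Algebra.IsAlgebraic K M]
    [Algebra (AlgebraicClosure k) M] (hroot : ∀ x : M, ∃ y : M, y ^ p = x)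
    (s : Gal(AlgebraicClosure k/k) →* Gal(M/K)) (hs : Continuous s)
    (hsec : ∀ σ a, s σ (algebraMap (AlgebraicClosure k) M a) =
      algebraMap (AlgebraicClosure k) M (σ a))
    (v : HeightOneSpectrum (𝓞 k)) (hv : (p : 𝓞 k) ∈ v.asIdeal)
    (ι : AlgebraicClosure k →ₐ[k] AlgebraicClosure (v.adicCompletion k)) :
    ∃ (A : ValuationSubring M) (φ : A →+* AlgebraicClosure (v.adicCompletion k)),
      MP_2f3286_bir.IsPlaceOf s (v.adicCompletion k)
        (ι : _ →+* AlgebraicClosure (v.adicCompletion k)) A φ := by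
  have hc' : CharZero (AlgebraicClosure k) :=
    charZero_of_injective_algebraMap (algebraMap k (AlgebraicClosure k)).injective
  have hG' : IsGalois k (AlgebraicClosure k) := IsAlgClosure.isGalois _ _
  have hF : Fact p.Prime := ⟨hp⟩
  obtain ⟨w, v', D, h1, h2, h3, h4, h5, h6⟩ := dec_p hp v hv ι
  let t : D →* (M ≃+* M) :=
    { toFun := fun σ => (s (σ : Gal(AlgebraicClosure k/k)) : M ≃+* M)
      map_one' := by ext x; simp
      map_mul' := fun σ τ => by ext x; simp }
  have ht : SecD t p := by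
    refine ⟨fun σ a => hsec _ _, fun x => ?_, hroot⟩
    have hfin : FiniteDimensional K (IntermediateField.adjoin K {x}) :=
      IntermediateField.adjoin.finiteDimensional (Algebra.IsIntegral.isIntegral x)
    have ho := IntermediateField.fixingSubgroup_isOpen
      (IntermediateField.adjoin K {x} : IntermediateField K M)
    refine ⟨(IntermediateField.adjoin K {x} : IntermediateField K M).fixingSubgroup.comap s,
      ho.preimage hs, fun σ hσ => ?_⟩
    exact (IntermediateField.mem_fixingSubgroup_iff _ _).1 hσ x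
      (IntermediateField.mem_adjoin_simple_self K x)
  obtain ⟨A, φ, h7, h8, h9⟩ := place_pn h3 ht (w := w)
    (ι := (ι : _ →+* AlgebraicClosure (v.adicCompletion k))) ⟨h1, h2, h6⟩
  refine ⟨A, φ, h7, h8, fun σ τ hστ x => ?_⟩
  exact h9 ⟨σ, h5 σ τ hστ⟩ (τ : _ →+* _) (h4 τ) hστ x

/-- **Local places at all finite places of `k`** for a section of a field closed under `p`-th roots for
all primes `p`. -/
theorem local_place_all {k : Type*} [Field k] [NumberField k]
    {K M : Type*} [Field K] [Field M] [Algebra K M] [Algebra.IsAlgebraic K M]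
    [Algebra (AlgebraicClosure k) M] (hroot : ∀ p : ℕ, p.Prime → ∀ x : M, ∃ y : M, y ^ p = x)
    (s : Gal(AlgebraicClosure k/k) →* Gal(M/K)) (hs : Continuous s)
    (hsec : ∀ σ a, s σ (algebraMap (AlgebraicClosure k) M a) =
      algebraMap (AlgebraicClosure k) M (σ a))
    (v : HeightOneSpectrum (𝓞 k))
    (ι : AlgebraicClosure k →ₐ[k] AlgebraicClosure (v.adicCompletion k)) :
    ∃ (A : ValuationSubring M) (φ : A →+* AlgebraicClosure (v.adicCompletion k)),
      MP_2f3286_bir.IsPlaceOf s (v.adicCompletion k)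
        (ι : _ →+* AlgebraicClosure (v.adicCompletion k)) A φ := by
  obtain ⟨p, hp, hv⟩ : ∃ p : ℕ, p.Prime ∧ (p : 𝓞 k) ∈ v.asIdeal := by
    have h1 : v.asIdeal.comap (algebraMap ℤ (𝓞 k)) ≠ ⊥ := by
      intro h
      exact v.ne_bot (Ideal.eq_bot_of_comap_eq_bot h)
    have hpr : (v.asIdeal.comap (algebraMap ℤ (𝓞 k))).IsPrime := Ideal.comap_isPrime _ _
    obtain ⟨a, ha⟩ := (IsPrincipalIdealRing.principal
      (v.asIdeal.comap (algebraMap ℤ (𝓞 k)))).principal
    have ha0 : a ≠ 0 := by
      rintro rfl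
      apply h1
      rw [ha]
      exact Ideal.span_singleton_eq_bot.2 rfl
    have hap : Prime a := by
      rw [← Ideal.span_singleton_prime ha0]
      have h2 : (Ideal.span {a} : Ideal ℤ) = v.asIdeal.comap (algebraMap ℤ (𝓞 k)) := ha.symm
      rw [h2]
      exact hpr
    refine ⟨a.natAbs, Int.prime_iff_natAbs_prime.1 hap, ?_⟩
    have h2 : (a.natAbs : ℤ) ∈ v.asIdeal.comap (algebraMap ℤ (𝓞 k)) := by
      rw [ha]
      exact Ideal.mem_span_singleton.2 (Int.dvd_natAbs.2 dvd_rfl)
    rw [Ideal.mem_comap] at h2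
    have h3 : algebraMap ℤ (𝓞 k) (a.natAbs : ℤ) = ((a.natAbs : ℕ) : 𝓞 k) := by
      rw [eq_intCast, Int.cast_natCast]
    rwa [h3] at h2
  exact local_place_pn hp (hroot p hp) s hs hsec v hv ι

end Pool.Agent.Lib.MP_2f3286_ag.Ep
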